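import Pool.Agent.W394.BQN.Stm2

set_option autoImplicit false

open Polynomial

noncomputable section

namespace Pool.Agent.W11.BQN

open BQ Pool.Agent.W394.BQN

theorem t_SLB (h : S_GL) : S_SLB := by
  intro C _ u n q hq hu
  classical
  let ψ : MvPolynomial (Fin n) C →+* Semi C u n :=
    MvPolynomial.eval₂Hom ((Q.pr C u n).comp MvPolynomial.C)
      (fun i => Q.pr C u n (MvPolynomial.X i.succ))
  have hψC : ∀ c, ψ (MvPolynomial.C c) = Q.pr C u n (MvPolynomial.C c) := by
    intro c
    simp [ψ]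
  have hψX : ∀ i, ψ (MvPolynomial.X i) = Q.pr C u n (MvPolynomial.X i.succ) := by
    intro i
    simp [ψ]
  set P : MvPolynomial (Fin n) C := ∏ i, MvPolynomial.X i with hP
  have hx0 : Q.pr C u n (MvPolynomial.X 0) * ψ P = Q.pr C u n (MvPolynomial.C u) := by
    refine Eq.trans ?_ (Q.pr_prod C u n)
    refine Eq.trans ?_ (Fin.prod_univ_succ (fun i => Q.pr C u n (MvPolynomial.X i))).symm
    rw [hP, map_prod]
    simp only [hψX]
  have hPq : ψ P ∉ q := fun hmem => hu (hx0 ▸ q.mul_mem_left _ hmem)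
  -- the comparison map
  let L := Localization.Away P
  let θ : Semi C u n →+* L :=
    Q.lft C u n ((algebraMap (MvPolynomial (Fin n) C) L).comp MvPolynomial.C)
      (Fin.cons (algebraMap (MvPolynomial (Fin n) C) L (MvPolynomial.C u) *
          IsLocalization.Away.invSelf P)
        (fun i => algebraMap (MvPolynomial (Fin n) C) L (MvPolynomial.X i))) (by
        rw [Fin.prod_univ_succ]
        simp only [Fin.cons_zero, Fin.cons_succ]
        rw [← map_prod, ← hP, mul_assoc, mul_comm (IsLocalization.Away.invSelf P),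
          IsLocalization.Away.mul_invSelf, mul_one]
        rfl)
  have hθ : ∀ a, θ (ψ a) = algebraMap (MvPolynomial (Fin n) C) L a := by
    intro a
    have : θ.comp ψ = algebraMap (MvPolynomial (Fin n) C) L := by
      apply MvPolynomial.ringHom_ext
      · intro c
        rw [RingHom.comp_apply, hψC]
        exact Q.lft_C _ _ _ _ _ _ _
      · intro i
        rw [RingHom.comp_apply, hψX]
        refine (Q.lft_X _ _ _ _ _ _ _).trans ?_
        simp only [Fin.cons_succ]
    exact DFunLike.congr_fun this a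
  have hker : ∀ a, ψ a = 0 → ∃ m ∈ Submonoid.powers P, m * a = 0 := by
    intro a ha
    have h1 : algebraMap (MvPolynomial (Fin n) C) L a = 0 := by
      rw [← hθ, ha, map_zero]
    obtain ⟨m, hm⟩ := (IsLocalization.map_eq_zero_iff (Submonoid.powers P) L a).1 h1
    exact ⟨m, m.2, hm⟩
  have hsur : ∀ b, ∃ m ∈ Submonoid.powers P, ∃ a, ψ m * b = ψ a := by
    intro b
    obtain ⟨p, rfl⟩ := Ideal.Quotient.mk_surjective b
    change ∃ m ∈ Submonoid.powers P, ∃ a, ψ m * Q.pr C u n p = ψ a
    induction p using MvPolynomial.induction_on with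
    | C c => exact ⟨1, Submonoid.one_mem _, MvPolynomial.C c, by rw [map_one, one_mul, hψC]⟩
    | add p₁ p₂ h₁ h₂ =>
      obtain ⟨m₁, hm₁, a₁, e₁⟩ := h₁
      obtain ⟨m₂, hm₂, a₂, e₂⟩ := h₂
      refine ⟨m₁ * m₂, Submonoid.mul_mem _ hm₁ hm₂, m₂ * a₁ + m₁ * a₂, ?_⟩
      rw [map_mul, map_add, map_add, map_mul, map_mul, ← e₁, ← e₂]
      ring
    | mul_X p i hp =>
      obtain ⟨m, hm, a, e⟩ := hp
      refine Fin.cases ?_ (fun j => ?_) i
      · refine ⟨m * P, Submonoid.mul_mem _ hm (Submonoid.mem_powers P), a * MvPolynomial.C u, ?_⟩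
        rw [map_mul, map_mul, map_mul, ← e, hψC, ← hx0]
        ring
      · refine ⟨m, hm, a * MvPolynomial.X j, ?_⟩
        rw [map_mul, map_mul, ← e, hψX]
        ring
  obtain ⟨q', hq', -, e⟩ := (h (MvPolynomial (Fin n) C) (Semi C u n) ψ (Submonoid.powers P)
    hker hsur).1 q (by
      rintro m ⟨k, rfl⟩ hm
      rw [map_pow] at hm
      exact hPq (hq.mem_of_pow_mem k hm))
  exact ⟨q', hq', e⟩

end Pool.Agent.W11.BQN
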